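import Mathlib

/-! Project AAE (MP_ae801b_ag): shared lemmas for the modules S1, S2, S3. -/

set_option autoImplicit false

open Polynomial

namespace Pool.Agent.H71.AAE.SMod

universe u

/-- descend a homomorphism along a surjection -/
theorem exists_desc {k A B T : Type*} [CommRing k] [CommRing A] [Algebra k A] [CommRing B]
    [Algebra k B] [CommRing T] [Algebra k T] (Φ : A →ₐ[k] B) (hΦ : Function.Surjective Φ)
    (Ψ : A →ₐ[k] T) (h : ∀ a, Φ a = 0 → Ψ a = 0) : ∃ p : B →ₐ[k] T, ∀ a, p (Φ a) = Ψ a := by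
  refine ⟨(Ideal.Quotient.liftₐ (RingHom.ker Φ) Ψ (fun a ha => h a ha)).comp
    (Ideal.quotientKerAlgEquivOfSurjective hΦ).symm.toAlgHom, fun a => ?_⟩
  simp only [AlgHom.comp_apply]
  have h1 : (Ideal.quotientKerAlgEquivOfSurjective hΦ).symm.toAlgHom (Φ a) =
      Ideal.Quotient.mk (RingHom.ker Φ) a := by
    change (Ideal.quotientKerAlgEquivOfSurjective hΦ).symm (Φ a) = _
    rw [Ideal.quotientKerAlgEquivOfSurjective_symm_apply]
  rw [h1]
  rfl

/-- homs `B → T` from a value `σ` on constants and `t` on `X`. -/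
theorem exists_desc_poly {k R B T : Type*} [CommRing k] [CommRing R] [Algebra k R] [CommRing B]
    [Algebra k B] [CommRing T] [Algebra k T] (φ : R[X] →ₐ[k] B) (hφ : Function.Surjective φ)
    (σ : R →ₐ[k] T) (t : T) (h : ∀ f, φ f = 0 → eval₂ (σ : R →+* T) t f = 0) :
    ∃ p : B →ₐ[k] T, (∀ f, p (φ f) = eval₂ (σ : R →+* T) t f) ∧ p (φ X) = t ∧
      ∀ ρ, p (φ (C ρ)) = σ ρ := by
  let Ψ : R[X] →ₐ[k] T :=
    { Polynomial.eval₂RingHom (σ : R →+* T) t with
      commutes' := fun c => by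
        simp [Polynomial.algebraMap_apply] }
  have hΨ : ∀ f, Ψ f = eval₂ (σ : R →+* T) t f := fun f => rfl
  obtain ⟨p, hp⟩ := exists_desc φ hφ Ψ (fun a ha => by rw [hΨ]; exact h a ha)
  refine ⟨p, fun f => by rw [hp, hΨ], ?_, fun ρ => ?_⟩
  · rw [hp, hΨ, eval₂_X]
  · rw [hp, hΨ, eval₂_C]
    rfl

/-- Over a field quotient `κ` of `R`: the fibre algebra is `κ + κ g`. -/
theorem fibre_two {k R B κ : Type u} [Field k] [CommRing R] [Algebra k R] [CommRing B]
    [Algebra k B] [Field κ] [Algebra k κ] (π : R →ₐ[k] κ) (hπ : Function.Surjective π)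
    (φ : R[X] →ₐ[k] B) (hφ : Function.Surjective φ)
    (h0 : ∃ h : R[X], h.Monic ∧ φ h = 0)
    (h1 : ∀ (Ω : Type u) [Field Ω] [Algebra k Ω] (p q r : B →ₐ[k] Ω),
      p (φ X) ≠ q (φ X) → q (φ X) ≠ r (φ X) → p (φ X) ≠ r (φ X) →
      (∀ ρ, p (φ (C ρ)) = q (φ (C ρ))) → (∀ ρ, q (φ (C ρ)) = r (φ (C ρ))) → False)
    (h2 : ∀ (Ω : Type u) [Field Ω] [Algebra k Ω] (θ : B →ₐ[k] DualNumber Ω),
      TrivSqZeroExt.snd (θ (φ X)) ≠ 0 → (∀ ρ, TrivSqZeroExt.snd (θ (φ (C ρ))) = 0) → False)
    (f : R[X]) : ∃ (α β : R) (j : R[X]), φ j = 0 ∧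
      (f - (C α + C β * X) - j).map (π : R →+* κ) = 0 := by
  classical
  set P : R →+* κ := (π : R →+* κ) with hP
  have hPs : Function.Surjective P := hπ
  set J : Ideal κ[X] := Ideal.map (mapRingHom P) (RingHom.ker φ) with hJ
  have hsurj : Function.Surjective (mapRingHom P) := Polynomial.map_surjective P hPs
  have hmem : ∀ y, y ∈ J ↔ ∃ x, φ x = 0 ∧ x.map P = y := by
    intro y
    rw [hJ, Ideal.mem_map_iff_of_surjective _ hsurj]
    rfl
  obtain ⟨h, hm, hh⟩ := h0
  obtain ⟨d, hd⟩ : ∃ d, J = Ideal.span {d} := by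
    obtain ⟨d, hd⟩ := (IsPrincipalIdealRing.principal J).principal
    exact ⟨d, hd⟩
  have hmemd : ∀ y, y ∈ J ↔ d ∣ y := by
    intro y; rw [hd, Ideal.mem_span_singleton]
  have hd0 : d ≠ 0 := by
    intro h00
    have : h.map P ∈ J := (hmem _).2 ⟨h, hh, rfl⟩
    rw [hmemd, h00, zero_dvd_iff] at this
    exact (hm.map P).ne_zero this
  by_cases hdeg : d.natDegree ≤ 2
  · -- divide
    have h3 : f.map P = d * (f.map P / d) + f.map P % d := (EuclideanDomain.div_add_mod _ _).symm
    have h4 : (f.map P % d).degree < d.degree := EuclideanDomain.mod_lt _ hd0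
    have h5 : (f.map P % d).natDegree < 2 ∨ f.map P % d = 0 := by
      by_cases h00 : f.map P % d = 0
      · right; exact h00
      · left
        have := natDegree_lt_natDegree h00 h4
        omega
    have h6 : (f.map P % d) = C ((f.map P % d).coeff 0) + C ((f.map P % d).coeff 1) * X := by
      rcases h5 with h5 | h5
      · conv_lhs => rw [Polynomial.as_sum_range' (f.map P % d) 2 h5]
        simp [Finset.sum_range_succ, ← C_mul_X_pow_eq_monomial]
      · rw [h5]; simp
    obtain ⟨α, hα⟩ := hPs ((f.map P % d).coeff 0)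
    obtain ⟨β, hβ⟩ := hPs ((f.map P % d).coeff 1)
    obtain ⟨j, hj, hj2⟩ := (hmem (d * (f.map P / d))).1 ((hmemd _).2 (Dvd.intro _ rfl))
    refine ⟨α, β, j, hj, ?_⟩
    simp only [Polynomial.map_sub, Polynomial.map_add, Polynomial.map_mul, map_C, map_X]
    rw [hα, hβ, hj2, ← h6]
    linear_combination h3
  · exfalso
    push Not at hdeg
    let Ω := AlgebraicClosure κ
    set D : Polynomial Ω := d.map (algebraMap κ Ω) with hD
    have hD0 : D ≠ 0 := (Polynomial.map_ne_zero_iff (algebraMap κ Ω).injective).2 hd0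
    have hcard : 2 < Multiset.card D.roots := by
      have hs : D.Splits := IsAlgClosed.splits D
      rw [← hs.natDegree_eq_card_roots, hD, natDegree_map]
      exact hdeg
    let σ : R →ₐ[k] Ω := (IsScalarTower.toAlgHom k κ Ω).comp π
    have hσ : (σ : R →+* Ω) = (algebraMap κ Ω).comp P := rfl
    -- every root gives a point
    have hpt : ∀ t : Ω, t ∈ D.roots → ∃ p : B →ₐ[k] Ω, p (φ X) = t ∧ ∀ ρ, p (φ (C ρ)) = σ ρ := by
      intro t ht
      obtain ⟨p, -, h4, h5⟩ := exists_desc_poly φ hφ σ t (fun g hg => by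
        have h6 : g.map P ∈ J := (hmem _).2 ⟨g, hg, rfl⟩
        obtain ⟨e, he⟩ := (hmemd _).1 h6
        rw [hσ, ← eval₂_map, he, eval₂_mul]
        have h7 : eval₂ (algebraMap κ Ω) t d = 0 := by
          have := isRoot_of_mem_roots ht
          rw [IsRoot, hD, eval_map] at this
          exact this
        rw [h7, zero_mul])
      exact ⟨p, h4, h5⟩
    by_cases hnd : D.roots.Nodup
    · have h3 : 2 < D.roots.toFinset.card := by
        rw [Multiset.toFinset_card_of_nodup hnd]; exact hcard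
      obtain ⟨a, b, c, ha, hb, hc, hab, hac, hbc⟩ := Finset.two_lt_card_iff.1 h3
      rw [Multiset.mem_toFinset] at ha hb hc
      obtain ⟨p, hp1, hp2⟩ := hpt a ha
      obtain ⟨q, hq1, hq2⟩ := hpt b hb
      obtain ⟨r, hr1, hr2⟩ := hpt c hc
      exact h1 Ω p q r (by rw [hp1, hq1]; exact hab) (by rw [hq1, hr1]; exact hbc)
        (by rw [hp1, hr1]; exact hac) (fun ρ => by rw [hp2, hq2]) (fun ρ => by rw [hq2, hr2])
    · rw [Multiset.nodup_iff_count_le_one] at hnd
      push Not at hnd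
      obtain ⟨t, ht⟩ := hnd
      rw [count_roots, one_lt_rootMultiplicity_iff_isRoot hD0] at ht
      obtain ⟨ht1, ht2⟩ := ht
      let σ' : R →ₐ[k] DualNumber Ω := (TrivSqZeroExt.inlAlgHom k Ω Ω).comp σ
      have hσ' : (σ' : R →+* DualNumber Ω) =
          (algebraMap Ω (DualNumber Ω)).comp ((algebraMap κ Ω).comp P) := rfl
      obtain ⟨θ, -, h4, h5⟩ := exists_desc_poly φ hφ σ'
        (algebraMap Ω (DualNumber Ω) t + DualNumber.eps) (fun g hg => by
          have h6 : g.map P ∈ J := (hmem _).2 ⟨g, hg, rfl⟩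
          obtain ⟨e, he⟩ := (hmemd _).1 h6
          rw [hσ', ← eval₂_map, ← Polynomial.map_map, he, Polynomial.map_mul, eval₂_mul]
          have h7 : eval₂ (algebraMap Ω (DualNumber Ω))
              (algebraMap Ω (DualNumber Ω) t + DualNumber.eps) D = 0 := by
            rw [← aeval_def, aeval_add_of_sq_eq_zero _ _ _ (by rw [sq, DualNumber.eps_mul_eps]),
              aeval_algebraMap_apply, aeval_algebraMap_apply]
            rw [coe_aeval_eq_eval, ht1.eq_zero, ht2.eq_zero]
            simp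
          rw [h7, zero_mul])
      refine h2 Ω θ ?_ ?_
      · rw [h4]
        have : TrivSqZeroExt.snd (algebraMap Ω (DualNumber Ω) t + DualNumber.eps) = (1 : Ω) := by
          rw [TrivSqZeroExt.snd_add]
          simp [TrivSqZeroExt.algebraMap_eq_inl]
        rw [this]
        exact one_ne_zero
      · intro ρ
        rw [h5]
        change TrivSqZeroExt.snd (TrivSqZeroExt.inl (σ ρ)) = _
        simp

end Pool.Agent.H71.AAE.SMod
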