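import Mathlib
import Pool.Agent.H68.AAE.SBase

/-! Project AAE (MP_ae801b_ag), module S1: `B = S + S g`. -/

set_option autoImplicit false

open Polynomial

namespace Pool.Agent.H71.AAE

universe u

namespace SMod

/-- polynomials whose image lies in `S + S g` -/
def two {k R B : Type u} [Field k] [CommRing R] [Algebra k R] [CommRing B] [Algebra k B]
    (φ : R[X] →ₐ[k] B) : Submodule R R[X] where
  carrier := {f | ∃ α β : R, φ f = φ (C α) + φ (C β) * φ X}
  add_mem' := by
    rintro a b ⟨α, β, h⟩ ⟨α', β', h'⟩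
    exact ⟨α + α', β + β', by rw [map_add, h, h']; simp only [C_add, map_add]; ring⟩
  zero_mem' := ⟨0, 0, by simp⟩
  smul_mem' := by
    rintro c a ⟨α, β, h⟩
    exact ⟨c * α, c * β, by rw [smul_eq_C_mul, map_mul, h]; simp only [C_mul, map_mul]; ring⟩

theorem struct_two_gen {k R B : Type u} [Field k] [CommRing R] [Algebra k R] [CommRing B]
    [Algebra k B] (φ : R[X] →ₐ[k] B) (hφ : Function.Surjective φ)
    (h0 : ∃ h : R[X], h.Monic ∧ φ h = 0)
    (h1 : ∀ (Ω : Type u) [Field Ω] [Algebra k Ω] (p q r : B →ₐ[k] Ω),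
      p (φ X) ≠ q (φ X) → q (φ X) ≠ r (φ X) → p (φ X) ≠ r (φ X) →
      (∀ ρ, p (φ (C ρ)) = q (φ (C ρ))) → (∀ ρ, q (φ (C ρ)) = r (φ (C ρ))) → False)
    (h2 : ∀ (Ω : Type u) [Field Ω] [Algebra k Ω] (θ : B →ₐ[k] DualNumber Ω),
      TrivSqZeroExt.snd (θ (φ X)) ≠ 0 → (∀ ρ, TrivSqZeroExt.snd (θ (φ (C ρ))) = 0) → False) :
    ∀ b, ∃ α β : R, b = φ (C α) + φ (C β) * φ X := by
  classical
  suffices hW : two φ = ⊤ by
    intro b
    obtain ⟨f, rfl⟩ := hφ b
    have : f ∈ two φ := by rw [hW]; trivial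
    exact this
  obtain ⟨h, hm, hh⟩ := h0
  -- the quotient is a finite module
  have hker : ∀ f : R[X], φ f = 0 → f ∈ two φ := fun f hf => ⟨0, 0, by rw [hf]; simp⟩
  have hfin : Module.Finite R (R[X] ⧸ two φ) := by
    have hfin0 : Module.Finite R (degreeLT R h.natDegree) :=
      Module.Finite.equiv (degreeLTEquiv R h.natDegree).symm
    refine Module.Finite.of_surjective
      ((two φ).mkQ.comp (degreeLT R h.natDegree).subtype) ?_
    intro x
    obtain ⟨f, rfl⟩ := (two φ).mkQ_surjective x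
    rcases subsingleton_or_nontrivial R with hR | hR
    · exact ⟨0, by
        have : Subsingleton (R[X] ⧸ two φ) := Module.subsingleton R _
        exact Subsingleton.elim _ _⟩
    have hlt : (f %ₘ h).degree < h.degree := degree_modByMonic_lt _ hm
    refine ⟨⟨f %ₘ h, ?_⟩, ?_⟩
    · rw [mem_degreeLT]
      exact lt_of_lt_of_le hlt degree_le_natDegree
    · simp only [LinearMap.comp_apply, Submodule.subtype_apply]
      rw [← sub_eq_zero, ← map_sub, Submodule.mkQ_apply, Submodule.Quotient.mk_eq_zero]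
      apply hker
      have : f %ₘ h - f = - (h * (f /ₘ h)) := by
        have := modByMonic_add_div f h
        linear_combination this
      rw [this, map_neg, map_mul, hh, zero_mul, neg_zero]
  by_contra hne
  have hnt : Nontrivial (R[X] ⧸ two φ) := Submodule.Quotient.nontrivial_iff.mpr hne
  have hann : Module.annihilator R (R[X] ⧸ two φ) ≠ ⊤ := by
    intro htop
    have h3 : (1 : R) ∈ Module.annihilator R (R[X] ⧸ two φ) := by rw [htop]; trivial
    rw [Module.mem_annihilator] at h3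
    obtain ⟨x, hx⟩ := exists_ne (0 : R[X] ⧸ two φ)
    exact hx (by simpa using h3 x)
  obtain ⟨q, hq, hle⟩ := Ideal.exists_le_maximal _ hann
  letI : Field (R ⧸ q) := Ideal.Quotient.field q
  have key := fibre_two (κ := R ⧸ q) (Ideal.Quotient.mkₐ k q) (Ideal.Quotient.mkₐ_surjective k q)
    φ hφ ⟨h, hm, hh⟩ h1 h2
  have htop : (⊤ : Submodule R (R[X] ⧸ two φ)) ≤ q • ⊤ := by
    rintro x -
    obtain ⟨f, rfl⟩ := (two φ).mkQ_surjective x
    obtain ⟨α, β, j, hj, h3⟩ := key f
    have h4 : (two φ).mkQ f = (two φ).mkQ (f - (C α + C β * X) - j) := by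
      rw [← sub_eq_zero, ← map_sub, Submodule.mkQ_apply, Submodule.Quotient.mk_eq_zero]
      refine ⟨α, β, ?_⟩
      simp only [map_sub, map_add, map_mul, hj]
      ring
    rw [h4]
    set e := f - (C α + C β * X) - j with he
    have h5 : ∀ n, e.coeff n ∈ q := by
      intro n
      have := congrArg (fun p => coeff p n) h3
      simp only [coeff_map, coeff_zero] at this
      exact Ideal.Quotient.eq_zero_iff_mem.1 this
    rw [e.as_sum_range_C_mul_X_pow, map_sum]
    refine Submodule.sum_mem _ fun i _ => ?_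
    rw [← smul_eq_C_mul, map_smul]
    exact Submodule.smul_mem_smul (h5 i) trivial
  obtain ⟨r, hr1, hr2⟩ := Submodule.exists_sub_one_mem_and_smul_eq_zero_of_fg_of_le_smul q ⊤
    Module.Finite.fg_top htop
  have hr3 : r ∈ q := hle (by
    rw [Module.mem_annihilator]
    intro x
    exact hr2 x trivial)
  have : (1 : R) ∈ q := by
    have := q.sub_mem hr3 hr1
    simpa using this
  exact hq.ne_top ((Ideal.eq_top_iff_one q).2 this)

end SMod

/-- `B = S + S g` -/
theorem struct_two {k : Type u} [Field k] {N m : ℕ}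
    (φ : (MvPolynomial (Fin N) k)[X] →ₐ[k] MvPolynomial (Fin m) k) (hφ : Function.Surjective φ)
    (h0 : ∃ h : (MvPolynomial (Fin N) k)[X], h.Monic ∧ φ h = 0)
    (h1 : ∀ (Ω : Type u) [Field Ω] [Algebra k Ω] (p q r : MvPolynomial (Fin m) k →ₐ[k] Ω),
      p (φ X) ≠ q (φ X) → q (φ X) ≠ r (φ X) → p (φ X) ≠ r (φ X) →
      (∀ ρ, p (φ (C ρ)) = q (φ (C ρ))) → (∀ ρ, q (φ (C ρ)) = r (φ (C ρ))) → False)
    (h2 : ∀ (Ω : Type u) [Field Ω] [Algebra k Ω] (θ : MvPolynomial (Fin m) k →ₐ[k] DualNumber Ω),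
      TrivSqZeroExt.snd (θ (φ X)) ≠ 0 → (∀ ρ, TrivSqZeroExt.snd (θ (φ (C ρ))) = 0) → False) :
    ∀ b, ∃ α β : MvPolynomial (Fin N) k, b = φ (C α) + φ (C β) * φ X :=
  SMod.struct_two_gen φ hφ h0 h1 h2

end Pool.Agent.H71.AAE
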