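import Mathlib
import Pool.Agent.H71.AAE.Defs
import Pool.Agent.H68.AAE.SBase

/-! Project AAE (MP_ae801b_ag), module S2: `(u) + c = B`. -/

set_option autoImplicit false

open Polynomial

namespace Pool.Agent.H71.AAE

universe u

namespace SMod

theorem struct_unit_gen {k R B : Type u} [Field k] [CharZero k] [CommRing R] [Algebra k R]
    [CommRing B] [Algebra k B] (φ : R[X] →ₐ[k] B) (hφ : Function.Surjective φ)
    (h2 : ∀ (Ω : Type u) [Field Ω] [Algebra k Ω] (θ : B →ₐ[k] DualNumber Ω),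
      TrivSqZeroExt.snd (θ (φ X)) ≠ 0 → (∀ ρ, TrivSqZeroExt.snd (θ (φ (C ρ))) = 0) → False)
    (hS : ∀ b, ∃ α β : R, b = φ (C α) + φ (C β) * φ X)
    (s p : R) (hg : φ X ^ 2 = φ (C s) * φ X - φ (C p)) (c : Ideal B)
    (hc : ∀ b, (∀ b', ∃ ρ, φ (C ρ) = b * b') → b ∈ c) :
    Ideal.span {φ (C s) - 2 * φ X} ⊔ c = ⊤ := by
  classical
  by_contra hne
  obtain ⟨n, hn, hle⟩ := Ideal.exists_le_maximal _ hne
  have hcn : c ≤ n := le_trans le_sup_right hle
  have hun : φ (C s) - 2 * φ X ∈ n :=
    hle (Ideal.mem_sup_left (Ideal.subset_span (Set.mem_singleton _)))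
  set F : R →+* B := (φ : R[X] →+* B).comp (C : R →+* R[X]) with hF
  have hFa : ∀ ρ, F ρ = φ (C ρ) := fun ρ => rfl
  -- `F` is integral
  obtain ⟨a, ha⟩ : ∃ a : R[X], a = X ^ 2 - C s * X + C p := ⟨_, rfl⟩
  have ham : a.Monic := by
    have : a = X ^ 2 + (- C s * X + C p) := by rw [ha]; ring
    rw [this]
    refine monic_X_pow_add ?_
    refine lt_of_le_of_lt (degree_add_le _ _) ?_
    refine max_lt ?_ ?_
    · refine lt_of_le_of_lt (degree_mul_le _ _) ?_
      have h1 : (- C s).degree ≤ 0 := by rw [degree_neg]; exact degree_C_le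
      have h2 : (X : R[X]).degree ≤ 1 := degree_X_le
      exact lt_of_le_of_lt (add_le_add h1 h2) (by norm_num)
    · exact lt_of_le_of_lt degree_C_le (by norm_num)
  have haφ : φ a = 0 := by
    rw [ha, map_add, map_sub, map_mul, map_pow, hg]; ring
  have hgi : F.IsIntegralElem (φ X) := by
    refine ⟨a, ham, ?_⟩
    rw [ha]
    simp only [eval₂_add, eval₂_sub, eval₂_mul, eval₂_pow, eval₂_X, eval₂_C, hFa, hg]
    ring
  have hint : F.IsIntegral := by
    intro b
    obtain ⟨α, β, rfl⟩ := hS b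
    exact (F.isIntegralElem_map (x := α)).add F ((F.isIntegralElem_map (x := β)).mul F hgi)
  set q : Ideal R := n.comap F with hq
  have hqm : q.IsMaximal := Ideal.isMaximal_comap_of_isIntegral_of_isMaximal' F hint n
  let _ : Field (R ⧸ q) := Ideal.Quotient.field q
  have hchar : CharZero (R ⧸ q) := charZero_of_injective_algebraMap (algebraMap k (R ⧸ q)).injective
  -- the discriminant
  have hdisc : s ^ 2 - 4 * p ∈ q := by
    change F (s ^ 2 - 4 * p) ∈ n
    have : F (s ^ 2 - 4 * p) = (φ (C s) - 2 * φ X) * (φ (C s) - 2 * φ X) := by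
      have h4 : F (s ^ 2 - 4 * p) = φ (C s) ^ 2 - 4 * φ (C p) := by
        rw [map_sub, map_pow, map_mul, hFa s, hFa p, map_ofNat F 4]
      rw [h4]
      linear_combination (-4) * hg
    rw [this]
    exact n.mul_mem_left _ hun
  set π : R →ₐ[k] (R ⧸ q) := Ideal.Quotient.mkₐ k q with hπ
  have hdisc' : (π s) ^ 2 = 4 * π p := by
    have : π (s ^ 2 - 4 * p) = 0 := Ideal.Quotient.eq_zero_iff_mem.2 hdisc
    rw [map_sub, map_pow, map_mul] at this
    have h4 : π (4 : R) = 4 := map_ofNat π 4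
    rw [h4] at this
    linear_combination this
  -- elements killed by φ of degree ≤ 1 are in q
  have hrem : ∀ α β : R, φ (C α + C β * X) = 0 → α ∈ q ∧ β ∈ q := by
    intro α β h
    rw [map_add, map_mul] at h
    have hβ : β ∈ q := by
      change F β ∈ n
      refine hcn (hc _ ?_)
      intro b'
      obtain ⟨α', β', rfl⟩ := hS b'
      refine ⟨β * α' - β' * α, ?_⟩
      rw [hFa]
      simp only [map_sub, map_mul]
      linear_combination (-φ (C β')) * h
    refine ⟨?_, hβ⟩
    change F α ∈ n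
    have h5 : F α = - (F β * φ X) := by
      rw [hFa, hFa]; linear_combination h
    rw [h5]
    exact n.neg_mem (n.mul_mem_right _ hβ)
  -- the homomorphism to the dual numbers
  let σ' : R →ₐ[k] DualNumber (R ⧸ q) := (TrivSqZeroExt.inlAlgHom k (R ⧸ q) (R ⧸ q)).comp π
  have hσ' : (σ' : R →+* DualNumber (R ⧸ q)) =
      (algebraMap (R ⧸ q) (DualNumber (R ⧸ q))).comp (π : R →+* (R ⧸ q)) := rfl
  have htwo : (2 : R ⧸ q) ≠ 0 := two_ne_zero
  set t : R ⧸ q := π s / 2 with ht
  have ht2 : 2 * t = π s := by rw [ht]; field_simp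
  have ht4 : t ^ 2 = π p := by
    have h4 : (4 : R ⧸ q) ≠ 0 := by
      have h44 : (4 : R ⧸ q) = 2 * 2 := by norm_num
      rw [h44]
      exact mul_ne_zero htwo htwo
    apply mul_left_cancel₀ h4
    rw [← hdisc', ← ht2]; ring
  obtain ⟨θ, -, h4, h5⟩ := exists_desc_poly φ hφ σ'
    (algebraMap (R ⧸ q) (DualNumber (R ⧸ q)) t + DualNumber.eps) (fun f hf => by
      -- divide by `a`
      rcases subsingleton_or_nontrivial R with hR | hR
      · exact absurd ((Ideal.eq_top_iff_one q).2
          (by rw [Subsingleton.elim (1 : R) 0]; exact q.zero_mem)) hqm.ne_top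
      have had : a.natDegree ≤ 2 := by
        rw [ha]
        compute_degree
      have h6 : f %ₘ a = C ((f %ₘ a).coeff 0) + C ((f %ₘ a).coeff 1) * X := by
        have hlt : (f %ₘ a).natDegree < 2 ∨ f %ₘ a = 0 := by
          by_cases h00 : f %ₘ a = 0
          · right; exact h00
          · left
            have := natDegree_lt_natDegree h00 (degree_modByMonic_lt f ham)
            omega
        rcases hlt with hlt | hlt
        · conv_lhs => rw [Polynomial.as_sum_range' (f %ₘ a) 2 hlt]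
          simp [Finset.sum_range_succ, ← C_mul_X_pow_eq_monomial]
        · rw [hlt]; simp
      have h7 : f = a * (f /ₘ a) + (C ((f %ₘ a).coeff 0) + C ((f %ₘ a).coeff 1) * X) := by
        rw [← h6]
        have := modByMonic_add_div f a
        linear_combination -this
      have h8 : φ (C ((f %ₘ a).coeff 0) + C ((f %ₘ a).coeff 1) * X) = 0 := by
        rw [h7, map_add, map_mul, haφ, zero_mul, zero_add] at hf
        exact hf
      obtain ⟨h9, h10⟩ := hrem _ _ h8
      have h9' : π ((f %ₘ a).coeff 0) = 0 := Ideal.Quotient.eq_zero_iff_mem.2 h9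
      have h10' : π ((f %ₘ a).coeff 1) = 0 := Ideal.Quotient.eq_zero_iff_mem.2 h10
      rw [h7, eval₂_add, eval₂_mul, eval₂_add, eval₂_mul, eval₂_C, eval₂_C, eval₂_X]
      have h11 : (σ' : R →+* DualNumber (R ⧸ q)) ((f %ₘ a).coeff 0) = 0 := by
        rw [hσ']
        change algebraMap _ _ (π _) = 0
        rw [h9', map_zero]
      have h12 : (σ' : R →+* DualNumber (R ⧸ q)) ((f %ₘ a).coeff 1) = 0 := by
        rw [hσ']
        change algebraMap _ _ (π _) = 0
        rw [h10', map_zero]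
      have h13 : eval₂ (σ' : R →+* DualNumber (R ⧸ q))
          (algebraMap (R ⧸ q) (DualNumber (R ⧸ q)) t + DualNumber.eps) a = 0 := by
        rw [ha]
        simp only [eval₂_add, eval₂_sub, eval₂_mul, eval₂_pow, eval₂_X, eval₂_C]
        have e1 : (σ' : R →+* DualNumber (R ⧸ q)) s = 2 * algebraMap (R ⧸ q) _ t := by
          rw [hσ']
          change algebraMap _ _ (π _) = _
          rw [← ht2, map_mul, map_ofNat]
        have e2 : (σ' : R →+* DualNumber (R ⧸ q)) p = (algebraMap (R ⧸ q) _ t) ^ 2 := by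
          rw [hσ']
          change algebraMap _ _ (π _) = _
          rw [← ht4, map_pow]
        rw [e1, e2]
        have e3 : (DualNumber.eps : DualNumber (R ⧸ q)) * DualNumber.eps = 0 :=
          DualNumber.eps_mul_eps
        linear_combination e3
      rw [h11, h12, h13]
      ring)
  refine h2 (R ⧸ q) θ ?_ ?_
  · rw [h4]
    have : TrivSqZeroExt.snd (algebraMap (R ⧸ q) (DualNumber (R ⧸ q)) t + DualNumber.eps) =
        (1 : R ⧸ q) := by
      rw [TrivSqZeroExt.snd_add]
      simp [TrivSqZeroExt.algebraMap_eq_inl]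
    rw [this]
    exact one_ne_zero
  · intro ρ
    rw [h5]
    change TrivSqZeroExt.snd (TrivSqZeroExt.inl (π ρ)) = _
    simp

end SMod

/-- `(u) + c = B` -/
theorem struct_unit {k : Type u} [Field k] [CharZero k] {N m : ℕ}
    (φ : (MvPolynomial (Fin N) k)[X] →ₐ[k] MvPolynomial (Fin m) k) (hφ : Function.Surjective φ)
    (_h0 : ∃ h : (MvPolynomial (Fin N) k)[X], h.Monic ∧ φ h = 0)
    (h2 : ∀ (Ω : Type u) [Field Ω] [Algebra k Ω] (θ : MvPolynomial (Fin m) k →ₐ[k] DualNumber Ω),
      TrivSqZeroExt.snd (θ (φ X)) ≠ 0 → (∀ ρ, TrivSqZeroExt.snd (θ (φ (C ρ))) = 0) → False)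
    (hS : ∀ b, ∃ α β : MvPolynomial (Fin N) k, b = φ (C α) + φ (C β) * φ X)
    (s p : MvPolynomial (Fin N) k) (hg : φ X ^ 2 = φ (C s) * φ X - φ (C p)) :
    Ideal.span {φ (C s) - 2 * φ X} ⊔ cond φ = ⊤ :=
  SMod.struct_unit_gen φ hφ h2 hS s p hg (cond φ) (fun _ hb => hb)

end Pool.Agent.H71.AAE
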