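import Mathlib
import Pool.Agent.H71.AAE.Defs
import Pool.Agent.H7.AAE.H

/-! Project AAE (MP_ae801b_ag), module U: unimodular rows over polynomial rings.
The Nagata automorphism part is copied from Mathlib/RingTheory/NoetherNormalization.lean
(private lemmas there). -/

set_option autoImplicit false

open Polynomial

namespace Pool.Agent.H71.AAE

universe u

namespace UMod

section nagata

open Polynomial MvPolynomial Ideal Nat RingHom List

variable {k : Type*} [Field k] {n : ℕ} (f : MvPolynomial (Fin (n + 1)) k)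
variable (v w : Fin (n + 1) →₀ ℕ)

variable {f v} in
private lemma lt_up (vlt : ∀ i, v i < (2 + f.totalDegree)) : ∀ l ∈ ofFn v, l < (2 + f.totalDegree) := by
  grind

/-- We construct an algebra map `T1 f c` which maps `X_i` into `X_i + c • X_0 ^ r_i` when `i ≠ 0`
and `X_0` to `X_0`. -/
noncomputable abbrev T1 (c : k) :
    MvPolynomial (Fin (n + 1)) k →ₐ[k] MvPolynomial (Fin (n + 1)) k :=
  aeval fun i ↦ if i = 0 then X 0 else X i + c • X 0 ^ (fun (i : Fin (n + 1)) ↦ (2 + f.totalDegree) ^ i.1) i

private lemma t1_comp_t1_neg (c : k) : (T1 f c).comp (T1 f (-c)) = AlgHom.id _ _ := by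
  rw [comp_aeval, ← MvPolynomial.aeval_X_left]
  ext i v
  cases i using Fin.cases <;> simp

/-- `T1 f 1` leads to an algebra equiv `T f`. -/
private noncomputable abbrev T := AlgEquiv.ofAlgHom (T1 f 1) (T1 f (-1))
  (t1_comp_t1_neg f 1) (by simpa using t1_comp_t1_neg f (-1))

private lemma sum_r_mul_ne (vlt : ∀ i, v i < (2 + f.totalDegree)) (wlt : ∀ i, w i < (2 + f.totalDegree)) (ne : v ≠ w) :
    ∑ x : Fin (n + 1), (fun (i : Fin (n + 1)) ↦ (2 + f.totalDegree) ^ i.1) x * v x ≠ ∑ x : Fin (n + 1), (fun (i : Fin (n + 1)) ↦ (2 + f.totalDegree) ^ i.1) x * w x := by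
  intro h
  refine ne <| Finsupp.ext <| congrFun <| ofFn_inj.mp ?_
  apply ofDigits_inj_of_len_eq (Nat.lt_add_right f.totalDegree one_lt_two)
    (by simp) (lt_up vlt) (lt_up wlt)
  simpa only [ofDigits_eq_sum_mapIdx, mapIdx_eq_ofFn, get_ofFn, length_ofFn,
    Fin.val_cast, mul_comm, sum_ofFn] using! h

private lemma degreeOf_zero_t {a : k} (ha : a ≠ 0) : ((T f) (monomial v a)).degreeOf 0 =
    ∑ i : Fin (n + 1), ((fun (i : Fin (n + 1)) ↦ (2 + f.totalDegree) ^ i.1) i) * v i := by
  rw [← natDegree_finSuccEquiv, monomial_eq, Finsupp.prod_pow v fun a ↦ X a]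
  simp only [Fin.prod_univ_succ, Fin.sum_univ_succ, map_mul, map_prod, map_pow,
    AlgEquiv.ofAlgHom_apply, MvPolynomial.aeval_C, MvPolynomial.aeval_X, if_pos, Fin.succ_ne_zero,
    ite_false, one_smul, map_add, finSuccEquiv_X_zero, finSuccEquiv_X_succ, algebraMap_eq]
  have h (i : Fin n) :
      (Polynomial.C (X (R := k) i) + Polynomial.X ^ (fun (i : Fin (n + 1)) ↦ (2 + f.totalDegree) ^ i.1) i.succ) ^ v i.succ ≠ 0 :=
    pow_ne_zero (v i.succ) (leadingCoeff_ne_zero.mp <| by simp [add_comm, leadingCoeff_X_pow_add_C])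
  rw [natDegree_mul (by simp [ha]) (mul_ne_zero (by simp) (Finset.prod_ne_zero_iff.mpr
    (fun i _ ↦ h i))), natDegree_mul (by simp) (Finset.prod_ne_zero_iff.mpr (fun i _ ↦ h i)),
    natDegree_prod _ _ (fun i _ ↦ h i), natDegree_finSuccEquiv, degreeOf_C]
  simpa only [natDegree_pow, zero_add, natDegree_X, mul_one, Fin.val_zero, pow_zero, one_mul,
    add_right_inj] using Finset.sum_congr rfl (fun i _ ↦ by
    rw [add_comm (Polynomial.C _), natDegree_X_pow_add_C, mul_comm])

/-- `T` maps different monomials of `f` to polynomials with different degrees in `X_0`. -/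
private lemma degreeOf_t_ne_of_ne (hv : v ∈ f.support) (hw : w ∈ f.support) (ne : v ≠ w) :
    (T f <| monomial v <| coeff v f).degreeOf 0 ≠
    (T f <| monomial w <| coeff w f).degreeOf 0 := by
  rw [degreeOf_zero_t _ _ <| mem_support_iff.mp hv, degreeOf_zero_t _ _ <| mem_support_iff.mp hw]
  refine sum_r_mul_ne f v w (fun i ↦ ?_) (fun i ↦ ?_) ne <;>
  exact lt_of_le_of_lt ((monomial_le_degreeOf i ‹_›).trans (degreeOf_le_totalDegree f i))
    (by lia)

private lemma leadingCoeff_finSuccEquiv_t :
    (finSuccEquiv k n ((T f) ((monomial v) (coeff v f)))).leadingCoeff =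
    algebraMap k _ (coeff v f) := by
  rw [monomial_eq, Finsupp.prod_fintype]
  · simp only [map_mul, map_prod, leadingCoeff_mul, leadingCoeff_prod]
    rw [AlgEquiv.ofAlgHom_apply, algHom_C, algebraMap_eq, finSuccEquiv_apply,
      eval₂Hom_C, coe_comp]
    simp only [AlgEquiv.ofAlgHom_apply, Function.comp_apply, leadingCoeff_C, map_pow,
      leadingCoeff_pow, algebraMap_eq]
    have : ∀ j, ((finSuccEquiv k n) ((T1 f) 1 (X j))).leadingCoeff = 1 := fun j ↦ by
      by_cases h : j = 0
      · simp [h, finSuccEquiv_apply]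
      · simp only [aeval_eq_bind₁, bind₁_X_right, if_neg h, one_smul, map_add, map_pow]
        obtain ⟨i, rfl⟩ := Fin.exists_succ_eq.mpr h
        simp [finSuccEquiv_X_succ, finSuccEquiv_X_zero, add_comm]
    simp only [this, one_pow, Finset.prod_const_one, mul_one]
  exact fun i ↦ pow_zero _

/-- `T` maps `f` into some polynomial in `X_0` such that the leading coefficient is invertible. -/
private lemma T_leadingcoeff_isUnit (fne : f ≠ 0) :
    IsUnit (finSuccEquiv k n (T f f)).leadingCoeff := by
  obtain ⟨v, vin, vs⟩ := Finset.exists_max_image f.support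
    (fun v ↦ (T f ((monomial v) (coeff v f))).degreeOf 0) (support_nonempty.mpr fne)
  set h := fun w ↦ (MvPolynomial.monomial w) (coeff w f)
  simp only [← natDegree_finSuccEquiv] at vs
  replace vs : ∀ x ∈ f.support \ {v}, (finSuccEquiv k n ((T f) (h x))).degree <
      (finSuccEquiv k n ((T f) (h v))).degree := by
    intro x hx
    obtain ⟨h1, h2⟩ := Finset.mem_sdiff.mp hx
    apply degree_lt_degree <| lt_of_le_of_ne (vs x h1) ?_
    simpa only [natDegree_finSuccEquiv]
      using degreeOf_t_ne_of_ne f _ _ h1 vin <| ne_of_not_mem_cons h2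
  have coeff : (finSuccEquiv k n ((T f) (h v + ∑ x ∈ f.support \ {v}, h x))).leadingCoeff =
      (finSuccEquiv k n ((T f) (h v))).leadingCoeff := by
    simp only [map_add, map_sum]
    rw [add_comm]
    apply leadingCoeff_add_of_degree_lt <| (lt_of_le_of_lt <| degree_sum_le _ _) ?_
    have h2 : h v ≠ 0 := by simpa [h] using mem_support_iff.mp vin
    replace h2 : (finSuccEquiv k n ((T f) (h v))) ≠ 0 := fun eq ↦ h2 <|
      by simpa only [map_eq_zero_iff _ (AlgEquiv.injective _)] using eq
    exact (Finset.sup_lt_iff <| Ne.bot_lt (fun x ↦ h2 <| degree_eq_bot.mp x)).mpr vs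
  nth_rw 2 [← f.support_sum_monomial_coeff]
  rw [Finset.sum_eq_add_sum_sdiff_singleton_of_mem vin h]
  rw [leadingCoeff_finSuccEquiv_t] at coeff
  simpa only [coeff, algebraMap_eq] using (mem_support_iff.mp vin).isUnit.map MvPolynomial.C

/-- Nagata: an automorphism making `f` monic up to a unit in the variable `X_0`. -/
theorem exists_nagata (fne : f ≠ 0) :
    ∃ S : MvPolynomial (Fin (n + 1)) k ≃ₐ[k] MvPolynomial (Fin (n + 1)) k,
      IsUnit (finSuccEquiv k n (S f)).leadingCoeff :=
  ⟨T f, T_leadingcoeff_isUnit f fne⟩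

end nagata

/-- completion of a row over `A` -/
def Compl {A : Type u} [CommRing A] {r : ℕ} (v : Fin (r + 3) → A) : Prop :=
  ∃ G G' : Matrix (Fin (r + 3)) (Fin (r + 3)) A, G * G' = 1 ∧ G' * G = 1 ∧
      Matrix.vecMul v G = Pi.single 0 1

/-- push forward along a ring hom -/
theorem Compl.map {A B : Type u} [CommRing A] [CommRing B] {r : ℕ} {v : Fin (r + 3) → A}
    (h : Compl v) (φ : A →+* B) : Compl (fun i => φ (v i)) := by
  obtain ⟨G, G', h1, h2, h3⟩ := h
  refine ⟨G.map φ, G'.map φ, ?_, ?_, ?_⟩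
  · rw [← Matrix.map_mul, h1]; simp
  · rw [← Matrix.map_mul, h2]; simp
  · have := congrArg (fun w => φ ∘ w) h3
    ext i
    have h4 := RingHom.map_vecMul φ G v i
    rw [h3] at h4
    rw [show (fun i => φ (v i)) = φ ∘ v from rfl, ← h4]
    by_cases hi : i = 0
    · subst hi; simp
    · simp [hi]

theorem compl_of_unit_leading {C : Type u} [CommRing C] [IsDomain C] {r : ℕ}
    (v : Fin (r + 3) → C[X]) (i₀ : Fin (r + 3)) (hmonic : IsUnit (v i₀).leadingCoeff)
    (hu : Ideal.span (Set.range v) = ⊤) : Compl v := by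
  obtain ⟨c, hc⟩ := hmonic
  have h1 : (Polynomial.C (↑c⁻¹ : C)) * Polynomial.C (↑c : C) = 1 := by
    rw [← Polynomial.C_mul]; simp
  have hm : ((fun i => Polynomial.C (↑c⁻¹ : C) * v i) i₀).Monic := by
    unfold Polynomial.Monic
    simp only [Polynomial.leadingCoeff_mul, Polynomial.leadingCoeff_C, ← hc]
    simp
  have hu' : Ideal.span (Set.range (fun i => Polynomial.C (↑c⁻¹ : C) * v i)) = ⊤ := by
    rw [eq_top_iff, ← hu, Ideal.span_le]
    rintro _ ⟨i, rfl⟩
    have : v i = Polynomial.C (↑c : C) * (Polynomial.C (↑c⁻¹ : C) * v i) := by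
      rw [← mul_assoc, mul_comm (Polynomial.C (↑c : C)), h1, one_mul]
    rw [SetLike.mem_coe, this]
    exact Ideal.mul_mem_left _ _ (Ideal.subset_span ⟨i, rfl⟩)
  obtain ⟨G, G', hG1, hG2, -, hG3⟩ := monic_row _ i₀ hm hu'
  have e1 : (G.map (eval (1 : C[X]))) * (G'.map (eval 1)) = 1 := by
    have := congrArg (fun M => M.map (Polynomial.evalRingHom (1 : C[X]))) hG1
    simp only [Matrix.map_mul] at this
    simpa using this
  have e2 : (G'.map (eval (1 : C[X]))) * (G.map (eval 1)) = 1 := by
    have := congrArg (fun M => M.map (Polynomial.evalRingHom (1 : C[X]))) hG2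
    simp only [Matrix.map_mul] at this
    simpa using this
  refine ⟨(Polynomial.C (↑c⁻¹ : C)) • G.map (eval 1), (Polynomial.C (↑c : C)) • G'.map (eval 1),
    ?_, ?_, ?_⟩
  · rw [Matrix.smul_mul, Matrix.mul_smul, e1, smul_smul, h1, one_smul]
  · rw [Matrix.smul_mul, Matrix.mul_smul, e2, smul_smul, mul_comm, h1, one_smul]
  · rw [Matrix.vecMul_smul, ← Matrix.smul_vecMul, ← hG3]
    rfl

end UMod

open UMod in
theorem unimodular_row {k : Type u} [Field k] {m r : ℕ}
    (v : Fin (r + 3) → MvPolynomial (Fin m) k) (hu : Ideal.span (Set.range v) = ⊤) :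
    ∃ G G' : Matrix (Fin (r + 3)) (Fin (r + 3)) (MvPolynomial (Fin m) k), G * G' = 1 ∧ G' * G = 1 ∧
      Matrix.vecMul v G = Pi.single 0 1 := by
  change Compl v
  -- some entry is nonzero
  have hne : ∃ i, v i ≠ 0 := by
    by_contra hcon
    push Not at hcon
    have : Set.range v ⊆ {0} := by
      rintro _ ⟨i, rfl⟩
      simp [hcon i]
    have h2 : Ideal.span (Set.range v) ≤ ⊥ := by
      rw [Ideal.span_le]
      rintro x hx
      simpa using this hx
    rw [hu] at h2
    exact top_ne_bot (le_bot_iff.mp h2)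
  obtain ⟨i₀, hi₀⟩ := hne
  cases m with
  | zero =>
    -- `MvPolynomial (Fin 0) k` is a field
    have hunit : IsUnit (v i₀) := by
      have eq := MvPolynomial.eq_C_of_isEmpty (v i₀)
      have ne : MvPolynomial.coeff 0 (v i₀) ≠ 0 := by
        intro h0
        rw [h0, map_zero] at eq
        exact hi₀ eq
      rw [eq]
      exact (isUnit_iff_ne_zero.mpr ne).map MvPolynomial.C
    have hc : Compl (fun i => Polynomial.C (v i)) := by
      refine compl_of_unit_leading _ i₀ (by simpa using hunit) ?_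
      have hmem : Polynomial.C (v i₀) ∈ Ideal.span (Set.range fun i => Polynomial.C (v i)) :=
        Ideal.subset_span ⟨i₀, rfl⟩
      exact Ideal.eq_top_of_isUnit_mem _ hmem (hunit.map Polynomial.C)
    have := hc.map (Polynomial.evalRingHom (0 : MvPolynomial (Fin 0) k))
    simpa using this
  | succ m =>
    obtain ⟨S, hS⟩ := exists_nagata (v i₀) hi₀
    let Φ : MvPolynomial (Fin (m + 1)) k ≃ₐ[k] (MvPolynomial (Fin m) k)[X] :=
      S.trans (MvPolynomial.finSuccEquiv k m)
    have hc : Compl (fun i => Φ (v i)) := by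
      refine compl_of_unit_leading _ i₀ hS ?_
      have h1 := congrArg (Ideal.map (Φ.toRingEquiv.toRingHom)) hu
      rw [Ideal.map_span, Ideal.map_top, ← Set.range_comp] at h1
      exact h1
    have := hc.map Φ.symm.toRingEquiv.toRingHom
    simpa using this

namespace UMod

theorem cancel_one {B : Type u} [CommRing B] {D : ℕ}
    (hB : ∀ v : Fin (D + 3) → B, Ideal.span (Set.range v) = ⊤ → Compl v) {N : Type u}
    [AddCommGroup N] [Module B N] (e : (N × B) ≃ₗ[B] (Fin (D + 3) → B)) :
    Nonempty (N ≃ₗ[B] (Fin (D + 2) → B)) := by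
  classical
  set x : Fin (D + 3) → B := e (0, 1) with hx
  have hu : Ideal.span (Set.range x) = ⊤ := by
    rw [Ideal.eq_top_iff_one]
    let ℓ : (Fin (D + 3) → B) →ₗ[B] B := (LinearMap.snd B N B).comp e.symm.toLinearMap
    have h1 : ℓ x = 1 := by simp [ℓ, hx]
    have h2 : ℓ x = ∑ i, x i * ℓ (Pi.single i 1) := by
      conv_lhs => rw [← Finset.univ_sum_single x]
      rw [map_sum]
      refine Finset.sum_congr rfl fun i _ => ?_
      rw [← smul_eq_mul, ← map_smul]
      congr 1
      ext j
      by_cases hj : j = i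
      · subst hj; simp
      · simp [hj]
    rw [← h1, h2]
    refine Ideal.sum_mem _ fun i _ => ?_
    exact Ideal.mul_mem_right _ _ (Ideal.subset_span ⟨i, rfl⟩)
  obtain ⟨G, G', h1, h2, h3⟩ := hB x hu
  -- the equivalence `y ↦ y G`
  let ψ : (Fin (D + 3) → B) ≃ₗ[B] (Fin (D + 3) → B) :=
    { toFun := fun y => Matrix.vecMul y G
      invFun := fun y => Matrix.vecMul y G'
      map_add' := fun a b => Matrix.add_vecMul _ _ _
      map_smul' := fun c a => by simp [Matrix.smul_vecMul]
      left_inv := fun y => by simp [Matrix.vecMul_vecMul, h1]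
      right_inv := fun y => by simp [Matrix.vecMul_vecMul, h2] }
  let e' := e.trans ψ
  have he' : e' (0, 1) = Pi.single 0 1 := h3
  have he'' : ∀ b : B, e' (0, b) = Pi.single 0 b := by
    intro b
    have : ((0 : N), b) = b • ((0 : N), (1 : B)) := by simp
    rw [this, map_smul, he']
    ext j
    by_cases hj : j = 0
    · subst hj; simp
    · simp [hj]
  have key : ∀ (n : N) (b : B), e' (n, b) = e' (n, 0) + Pi.single 0 b := by
    intro n b
    rw [← he'' b, ← map_add]; simp
  have hsym : ∀ b : B, e'.symm (Pi.single 0 b) = (0, b) := by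
    intro b
    rw [← he'' b]; simp
  refine ⟨{ toFun := fun n j => e' (n, 0) j.succ
            invFun := fun y => (e'.symm (Fin.cons 0 y : Fin (D + 3) → B)).1
            map_add' := ?_
            map_smul' := ?_
            left_inv := ?_
            right_inv := ?_ }⟩
  · intro a b
    have : ((a + b, 0) : N × B) = (a, 0) + (b, 0) := by simp
    ext j
    rw [this, map_add]; rfl
  · intro c a
    have : ((c • a, 0) : N × B) = c • (a, 0) := by simp
    ext j
    rw [this, map_smul]; rfl
  · intro n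
    simp only
    set y := e' (n, 0) with hy
    have h4 : (Fin.cons 0 (fun j => y (Fin.succ j)) : Fin (D + 3) → B) =
        y - Pi.single 0 (y 0) := by
      ext j
      refine Fin.cases ?_ (fun j => ?_) j <;> simp
    rw [h4, map_sub, hsym, hy]
    simp
  · intro y
    funext j
    simp only
    set z := e'.symm (Fin.cons 0 y) with hz
    have h4 : e' z = Fin.cons 0 y := by simp [hz]
    have h5 := key z.1 z.2
    rw [Prod.mk.eta, h4] at h5
    have h6 := congrFun h5 j.succ
    simpa using h6.symm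

/-- `(M × B^l) × B ≃ M × B^{l+1}` -/
noncomputable def shift (B : Type u) [CommRing B] (M : Type u) [AddCommGroup M] [Module B M]
    (l : ℕ) : ((M × (Fin l → B)) × B) ≃ₗ[B] (M × (Fin (l + 1) → B)) :=
  (LinearEquiv.prodAssoc B M (Fin l → B) B).trans
    (LinearEquiv.prodCongr (LinearEquiv.refl B M)
      ((LinearEquiv.prodComm B (Fin l → B) B).trans
        (Fin.consLinearEquiv B (fun _ : Fin (l + 1) => B))))

end UMod

open UMod in
theorem free_of_stably {k : Type u} [Field k] {m d l : ℕ} (hd : 2 ≤ d) {M : Type u}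
    [AddCommGroup M] [Module (MvPolynomial (Fin m) k) M]
    (e : (M × (Fin l → MvPolynomial (Fin m) k)) ≃ₗ[MvPolynomial (Fin m) k]
      (Fin (d + l) → MvPolynomial (Fin m) k)) :
    Nonempty (M ≃ₗ[MvPolynomial (Fin m) k] (Fin d → MvPolynomial (Fin m) k)) := by
  induction l with
  | zero =>
    let e0 : M ≃ₗ[MvPolynomial (Fin m) k] (M × (Fin 0 → MvPolynomial (Fin m) k)) :=
      { toFun := fun x => (x, 0)
        invFun := fun x => x.1
        map_add' := fun a b => by simp
        map_smul' := fun c a => by simp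
        left_inv := fun x => rfl
        right_inv := fun x => by
          refine Prod.ext rfl ?_
          funext i
          exact i.elim0 }
    exact ⟨e0.trans e⟩
  | succ l ih =>
    obtain ⟨d, rfl⟩ : ∃ d', d = d' + 2 := ⟨d - 2, by omega⟩
    have hcast : d + 2 + (l + 1) = (d + l) + 3 := by omega
    have hcast2 : d + l + 2 = d + 2 + l := by omega
    obtain ⟨e3⟩ := cancel_one (B := MvPolynomial (Fin m) k) (D := d + l)
      (fun v hv => unimodular_row v hv)
      (((shift (MvPolynomial (Fin m) k) M l).trans e).trans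
        (LinearEquiv.funCongrLeft _ _ (finCongr hcast.symm)))
    exact ih (e3.trans (LinearEquiv.funCongrLeft _ _ (finCongr hcast2.symm)))

end Pool.Agent.H71.AAE
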